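import Mathlib
import Pool.Agent.W546.ST.Defs

/-! Recurrences for the half-integer moments, the bounds `Y0 ≤ X0` and `X1 ≤ 0`. -/
set_option autoImplicit false
open MeasureTheory Set

namespace Pool.Agent.W797.ST
open Pool.Agent.W546.ST

variable {l : ℝ}

lemma hh_pos (h0 : 0 < l) (h1 : l ≤ 1 / 2) (a : ℝ) : 0 < hh l a := by
  unfold hh
  have := sq_nonneg (Real.sin a)
  nlinarith

lemma hh_ge (h1 : l ≤ 1 / 2) (a : ℝ) : l ≤ hh l a := by
  unfold hh
  have := sq_nonneg (Real.sin a)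
  nlinarith

lemma hh_le (h1 : l ≤ 1 / 2) (a : ℝ) : hh l a ≤ 1 - l := by
  unfold hh
  have := Real.sin_sq_le_one a
  nlinarith

lemma hh_cont (l : ℝ) : Continuous (hh l) := by
  unfold hh
  fun_prop

lemma cr (h0 : 0 < l) (h1 : l ≤ 1 / 2) (q : ℝ) : Continuous (fun a => hh l a ^ q) :=
  (hh_cont l).rpow_const fun a => Or.inl (hh_pos h0 h1 a).ne'

lemma hq_rpow (h0 : 0 < l) (h1 : l ≤ 1 / 2) (n k : ℕ) (a : ℝ) :
    hq n k l a = hh l a ^ ((n : ℝ) / 2 - k) := by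
  have hp := hh_pos h0 h1 a
  unfold hq
  rw [Real.rpow_sub hp, Real.rpow_natCast, Real.sqrt_eq_rpow, ← Real.rpow_natCast, ← Real.rpow_mul hp.le]
  congr 2
  ring

/-- mean of a real power -/
noncomputable def Er (q l : ℝ) : ℝ := mn (fun a => hh l a ^ q)

lemma Eq_eq (h0 : 0 < l) (h1 : l ≤ 1 / 2) (n k : ℕ) :
    Pool.Agent.W546.ST.Eq n k l = Er ((n : ℝ) / 2 - k) l := by
  unfold Pool.Agent.W546.ST.Eq Er
  congr 1
  ext a
  exact hq_rpow h0 h1 n k a

lemma mn_add {f g : ℝ → ℝ} (hf : Continuous f) (hg : Continuous g) :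
    mn (fun a => f a + g a) = mn f + mn g := by
  unfold mn
  rw [intervalIntegral.integral_add (hf.intervalIntegrable _ _) (hg.intervalIntegrable _ _)]
  ring

lemma mn_sub {f g : ℝ → ℝ} (hf : Continuous f) (hg : Continuous g) :
    mn (fun a => f a - g a) = mn f - mn g := by
  unfold mn
  rw [intervalIntegral.integral_sub (hf.intervalIntegrable _ _) (hg.intervalIntegrable _ _)]
  ring

lemma mn_mul (c : ℝ) (f : ℝ → ℝ) : mn (fun a => c * f a) = c * mn f := by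
  unfold mn
  rw [intervalIntegral.integral_const_mul]
  ring

lemma mn_const (c : ℝ) : mn (fun _ => c) = c := by
  unfold mn
  rw [intervalIntegral.integral_const]
  have := Real.pi_pos
  simp only [smul_eq_mul, sub_zero]
  field_simp

lemma mn_mono {f g : ℝ → ℝ} (hf : Continuous f) (hg : Continuous g) (h : ∀ a, f a ≤ g a) :
    mn f ≤ mn g := by
  unfold mn
  apply mul_le_mul_of_nonneg_left
  · exact intervalIntegral.integral_mono Real.pi_pos.le (hf.intervalIntegrable _ _)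
      (hg.intervalIntegrable _ _) h
  · have := Real.pi_pos
    positivity

lemma mn_pair (G : ℝ → ℝ) :
    mn (fun a => G (Real.sin a ^ 2)) = mn (fun a => G (1 - Real.sin a ^ 2)) := by
  unfold mn
  congr 1
  have hper : Function.Periodic (fun a : ℝ => G (Real.sin a ^ 2)) Real.pi := by
    intro a
    simp only [Real.sin_add_pi, neg_sq]
  have h1 : ∫ a in (0 : ℝ)..Real.pi, G (1 - Real.sin a ^ 2)
      = ∫ a in (0 : ℝ)..Real.pi, (fun x => G (Real.sin x ^ 2)) (Real.pi / 2 - a) := by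
    congr 1
    ext a
    simp only [Real.sin_pi_div_two_sub]
    congr 1
    rw [Real.sin_sq]
    ring
  have h3 := intervalIntegral.integral_comp_sub_left (a := 0) (b := Real.pi)
    (fun x : ℝ => G (Real.sin x ^ 2)) (Real.pi / 2)
  have h2 := hper.intervalIntegral_add_eq (Real.pi / 2 - Real.pi) 0
  rw [zero_add, show Real.pi / 2 - Real.pi + Real.pi = Real.pi / 2 - 0 by ring] at h2
  rw [h1, h3, h2]

lemma hh_one_sub (l a : ℝ) : l + (1 - 2 * l) * (1 - Real.sin a ^ 2) = 1 - hh l a := by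
  unfold hh
  ring

/-- pairing for functions of `hh` -/
lemma mn_pair_hh (G : ℝ → ℝ) : mn (fun a => G (hh l a)) = mn (fun a => G (1 - hh l a)) := by
  have h := mn_pair (fun x => G (l + (1 - 2 * l) * x))
  simp only [hh_one_sub] at h
  exact h

lemma rec_int (h0 : 0 < l) (h1 : l ≤ 1 / 2) (q : ℝ) :
    ∫ a in (0 : ℝ)..Real.pi, ((2 + 4 * q) * hh l a ^ q - (4 + 4 * q) * hh l a ^ (q + 1)
      - 4 * q * (l * (1 - l)) * hh l a ^ (q - 1)) = 0 := by
  have hd : ∀ a : ℝ, HasDerivAt (fun a => (1 - 2 * l) * (2 * Real.sin a * Real.cos a) * hh l a ^ q)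
      ((2 + 4 * q) * hh l a ^ q - (4 + 4 * q) * hh l a ^ (q + 1)
        - 4 * q * (l * (1 - l)) * hh l a ^ (q - 1)) a := by
    intro a
    have hp := hh_pos h0 h1 a
    have hs : HasDerivAt Real.sin (Real.cos a) a := Real.hasDerivAt_sin a
    have hc : HasDerivAt Real.cos (-Real.sin a) a := Real.hasDerivAt_cos a
    have hhd : HasDerivAt (hh l) ((1 - 2 * l) * (2 * Real.sin a * Real.cos a)) a := by
      have h : HasDerivAt (fun a => l + (1 - 2 * l) * Real.sin a ^ 2)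
          ((1 - 2 * l) * (((2 : ℕ) : ℝ) * Real.sin a ^ (2 - 1) * Real.cos a)) a :=
        ((hs.pow 2).const_mul (1 - 2 * l)).const_add l
      have e : (1 - 2 * l) * (((2 : ℕ) : ℝ) * Real.sin a ^ (2 - 1) * Real.cos a)
          = (1 - 2 * l) * (2 * Real.sin a * Real.cos a) := by
        norm_num
      rw [e] at h
      exact h
    have hr := hhd.rpow_const (p := q) (Or.inl hp.ne')
    have hm : HasDerivAt (fun a => (1 - 2 * l) * (2 * Real.sin a * Real.cos a) * hh l a ^ q)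
      ((1 - 2 * l) * (2 * Real.cos a * Real.cos a + 2 * Real.sin a * (-Real.sin a)) * hh l a ^ q
        + (1 - 2 * l) * (2 * Real.sin a * Real.cos a) *
          ((1 - 2 * l) * (2 * Real.sin a * Real.cos a) * q * hh l a ^ (q - 1))) a :=
      (((hs.const_mul 2).mul hc).const_mul (1 - 2 * l)).mul hr
    refine hm.congr_deriv ?_
    have e1 : hh l a ^ (q + 1) = hh l a ^ (q - 1) * hh l a ^ 2 := by
      rw [← Real.rpow_natCast (hh l a) 2, ← Real.rpow_add hp]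
      congr 1
      push_cast
      ring
    have e2 : hh l a ^ q = hh l a ^ (q - 1) * hh l a := by
      rw [← Real.rpow_add_one hp.ne']
      congr 1
      ring
    rw [e1, e2]
    have hc2 : Real.cos a ^ 2 = 1 - Real.sin a ^ 2 := Real.cos_sq' a
    set X := hh l a ^ (q - 1)
    have hX : hh l a = l + (1 - 2 * l) * Real.sin a ^ 2 := rfl
    rw [hX]
    linear_combination (X * (1 - 2 * l) * (2 * (l + (1 - 2 * l) * Real.sin a ^ 2)
      + 4 * q * (1 - 2 * l) * Real.sin a ^ 2)) * hc2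
  have hcont : Continuous (fun a => (2 + 4 * q) * hh l a ^ q - (4 + 4 * q) * hh l a ^ (q + 1)
      - 4 * q * (l * (1 - l)) * hh l a ^ (q - 1)) :=
    (((cr h0 h1 q).const_mul _).sub ((cr h0 h1 (q + 1)).const_mul _)).sub
      ((cr h0 h1 (q - 1)).const_mul _)
  rw [intervalIntegral.integral_eq_sub_of_hasDerivAt (fun x _ => hd x) (hcont.intervalIntegrable _ _)]
  simp

/-- the recurrence with a real exponent -/
lemma recr (h0 : 0 < l) (h1 : l ≤ 1 / 2) (q : ℝ) :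
    (2 * q + 1) * Er q l - (2 * q + 2) * Er (q + 1) l = 2 * q * (l * (1 - l)) * Er (q - 1) l := by
  have h := rec_int h0 h1 q
  have c0 := cr h0 h1 q
  have c1 := cr h0 h1 (q + 1)
  have c2 := cr h0 h1 (q - 1)
  have h2 : mn (fun a => (2 + 4 * q) * hh l a ^ q - (4 + 4 * q) * hh l a ^ (q + 1)
      - 4 * q * (l * (1 - l)) * hh l a ^ (q - 1)) = 0 := by
    unfold mn
    rw [h, mul_zero]
  have c0' : Continuous (fun a => (2 + 4 * q) * hh l a ^ q) := c0.const_mul _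
  have c1' : Continuous (fun a => (4 + 4 * q) * hh l a ^ (q + 1)) := c1.const_mul _
  have c2' : Continuous (fun a => 4 * q * (l * (1 - l)) * hh l a ^ (q - 1)) := c2.const_mul _
  have c3' : Continuous (fun a => (2 + 4 * q) * hh l a ^ q - (4 + 4 * q) * hh l a ^ (q + 1)) :=
    c0'.sub c1'
  rw [mn_sub c3' c2', mn_sub c0' c1', mn_mul, mn_mul, mn_mul] at h2
  unfold Er
  linarith

theorem REC : St_REC := by
  intro n l h0 h1 k
  rw [Eq_eq h0 h1, Eq_eq h0 h1, Eq_eq h0 h1]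
  have h := recr h0 h1 ((n : ℝ) / 2 - k - 1)
  have e1 : (n : ℝ) / 2 - ((k + 1 : ℕ) : ℝ) = (n : ℝ) / 2 - k - 1 := by push_cast; ring
  have e2 : (n : ℝ) / 2 - ((k + 2 : ℕ) : ℝ) = (n : ℝ) / 2 - k - 1 - 1 := by push_cast; ring
  have e3 : (n : ℝ) / 2 - k - 1 + 1 = (n : ℝ) / 2 - k := by ring
  rw [e1, e2]
  rw [e3] at h
  linarith

lemma Er_pos (h0 : 0 < l) (h1 : l ≤ 1 / 2) (q : ℝ) : 0 < Er q l := by
  unfold Er mn
  have hp := Real.pi_pos
  apply mul_pos (by positivity)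
  apply intervalIntegral.intervalIntegral_pos_of_pos_on
  · exact (cr h0 h1 q).intervalIntegrable _ _
  · intro a _
    exact Real.rpow_pos_of_pos (hh_pos h0 h1 a) q
  · exact hp

/-- Chebyshev: `E_q ≤ 2 E_{q+1}` for `q ≥ 0` -/
lemma cheb (h0 : 0 < l) (h1 : l ≤ 1 / 2) {q : ℝ} (hq : 0 ≤ q) : Er q l ≤ 2 * Er (q + 1) l := by
  have c0 := cr h0 h1 q
  have c1 := cr h0 h1 (q + 1)
  have hG := mn_pair_hh (l := l) (fun x => (2 * x - 1) * x ^ q)
  have cc : Continuous (fun a => (1 - hh l a) ^ q) := by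
    have c : Continuous (fun a => 1 - hh l a) := continuous_const.sub (hh_cont l)
    refine c.rpow_const fun a => Or.inl ?_
    have := hh_le h1 a
    show 1 - hh l a ≠ 0
    linarith
  have hs : 0 ≤ mn (fun a => (2 * hh l a - 1) * hh l a ^ q) := by
    have h2 : 2 * mn (fun a => (2 * hh l a - 1) * hh l a ^ q)
        = mn (fun a => (2 * hh l a - 1) * hh l a ^ q + (2 * (1 - hh l a) - 1) * (1 - hh l a) ^ q) := by
      have d1 : Continuous (fun a => (2 * hh l a - 1) * hh l a ^ q) :=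
        (((hh_cont l).const_mul 2).sub continuous_const).mul c0
      have d2 : Continuous (fun a => (2 * (1 - hh l a) - 1) * (1 - hh l a) ^ q) :=
        (((continuous_const.sub (hh_cont l)).const_mul 2).sub continuous_const).mul cc
      rw [mn_add d1 d2, ← hG]
      ring
    have h3 : 0 ≤ mn (fun a => (2 * hh l a - 1) * hh l a ^ q + (2 * (1 - hh l a) - 1) * (1 - hh l a) ^ q) := by
      rw [← mn_const 0]
      apply mn_mono continuous_const
      · exact ((((hh_cont l).const_mul 2).sub continuous_const).mul c0).add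
          ((((continuous_const.sub (hh_cont l)).const_mul 2).sub continuous_const).mul cc)
      · intro a
        have hp := hh_pos h0 h1 a
        have hp' : 0 < 1 - hh l a := by
          have := hh_le h1 a
          linarith
        have e : (2 * hh l a - 1) * hh l a ^ q + (2 * (1 - hh l a) - 1) * (1 - hh l a) ^ q
            = (2 * hh l a - 1) * (hh l a ^ q - (1 - hh l a) ^ q) := by ring
        rw [e]
        rcases le_total (hh l a) (1 / 2) with h | h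
        · apply mul_nonneg_of_nonpos_of_nonpos
          · linarith
          · have := Real.rpow_le_rpow hp.le (show hh l a ≤ 1 - hh l a by linarith) hq
            linarith
        · apply mul_nonneg
          · linarith
          · have := Real.rpow_le_rpow hp'.le (show 1 - hh l a ≤ hh l a by linarith) hq
            linarith
    linarith
  have h4 : mn (fun a => (2 * hh l a - 1) * hh l a ^ q) = 2 * Er (q + 1) l - Er q l := by
    unfold Er
    have c1' : Continuous (fun a => 2 * hh l a ^ (q + 1)) := c1.const_mul 2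
    rw [← mn_mul, ← mn_sub c1' c0]
    congr 1
    ext a
    rw [Real.rpow_add_one (hh_pos h0 h1 a).ne']
    ring
  linarith

/-! ## the two identities -/

/-- `br` as a function of `h` -/
noncomputable def phi (n : ℕ) (l x : ℝ) : ℝ :=
  x ^ ((n : ℝ) / 2 - 2) * ((n : ℝ) * (2 * n + 3) * x - 3 * ((n : ℝ) + 2) * x ^ 2
    + ((n : ℝ) + 3) * (l * (1 - l)))

lemma rp1 {x : ℝ} (hx : 0 < x) (q : ℝ) : x ^ (q + 1) = x ^ q * x := Real.rpow_add_one hx.ne' q

lemma rp2 {x : ℝ} (hx : 0 < x) (q : ℝ) : x ^ (q + 2) = x ^ q * x ^ 2 := by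
  rw [Real.rpow_add hx, Real.rpow_two]

lemma br_eq (h0 : 0 < l) (h1 : l ≤ 1 / 2) (n : ℕ) (a : ℝ) : br n l a = phi n l (hh l a) := by
  have hp := hh_pos h0 h1 a
  unfold br phi
  rw [hq_rpow h0 h1, hq_rpow h0 h1, hq_rpow h0 h1]
  have e1 : (n : ℝ) / 2 - ((1 : ℕ) : ℝ) = ((n : ℝ) / 2 - 2) + 1 := by push_cast; ring
  have e0 : (n : ℝ) / 2 - ((0 : ℕ) : ℝ) = ((n : ℝ) / 2 - 2) + 2 := by push_cast; ring
  have e2 : (n : ℝ) / 2 - ((2 : ℕ) : ℝ) = ((n : ℝ) / 2 - 2) := by push_cast; ring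
  rw [e0, e1, e2, rp1 hp, rp2 hp]
  ring

lemma hs_eq (l a : ℝ) : (1 - 2 * l) * Real.sin a ^ 2 = hh l a - l := by
  unfold hh
  ring

lemma Eq0 (h0 : 0 < l) (h1 : l ≤ 1 / 2) (n : ℕ) :
    Pool.Agent.W546.ST.Eq n 0 l = Er ((n : ℝ) / 2) l := by
  rw [Eq_eq h0 h1]
  congr 1
  push_cast
  ring

lemma Eq1 (h0 : 0 < l) (h1 : l ≤ 1 / 2) (n : ℕ) :
    Pool.Agent.W546.ST.Eq n 1 l = Er ((n : ℝ) / 2 - 1) l := by
  rw [Eq_eq h0 h1]
  congr 1
  push_cast
  ring

/-- linear combination of five powers -/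
lemma mn_lin (h0 : 0 < l) (h1 : l ≤ 1 / 2) (c0 c1 c2 c3 q0 q1 q2 q3 : ℝ) :
    mn (fun a => c0 * hh l a ^ q0 + c1 * hh l a ^ q1 + c2 * hh l a ^ q2 + c3 * hh l a ^ q3)
      = c0 * Er q0 l + c1 * Er q1 l + c2 * Er q2 l + c3 * Er q3 l := by
  have d0 : Continuous (fun a => c0 * hh l a ^ q0) := (cr h0 h1 q0).const_mul _
  have d1 : Continuous (fun a => c1 * hh l a ^ q1) := (cr h0 h1 q1).const_mul _
  have d2 : Continuous (fun a => c2 * hh l a ^ q2) := (cr h0 h1 q2).const_mul _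
  have d3 : Continuous (fun a => c3 * hh l a ^ q3) := (cr h0 h1 q3).const_mul _
  have d01 : Continuous (fun a => c0 * hh l a ^ q0 + c1 * hh l a ^ q1) := d0.add d1
  have d012 : Continuous (fun a => c0 * hh l a ^ q0 + c1 * hh l a ^ q1 + c2 * hh l a ^ q2) :=
    d01.add d2
  rw [mn_add d012 d3, mn_add d01 d2, mn_add d0 d1, mn_mul, mn_mul, mn_mul, mn_mul]
  rfl

/-- first form of `(1-2l) X0` -/
lemma X0_lin (h0 : 0 < l) (h1 : l ≤ 1 / 2) (n : ℕ) :
    (1 - 2 * l) * X0 n l =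
      ((1 - 2 * l) * (2 * (n : ℝ) + 3) + (n : ℝ) * (2 * n + 3) + 3 * l * ((n : ℝ) + 2))
          * Er ((n : ℝ) / 2) l
        + (-3 * ((n : ℝ) + 2)) * Er ((n : ℝ) / 2 + 1) l
        + (((n : ℝ) + 3) * (l * (1 - l)) - l * ((n : ℝ) * (2 * n + 3))) * Er ((n : ℝ) / 2 - 1) l
        + (-l * (((n : ℝ) + 3) * (l * (1 - l)))) * Er ((n : ℝ) / 2 - 1 - 1) l := by
  rw [← mn_lin h0 h1]
  unfold X0
  rw [← mn_mul]
  congr 1
  ext a
  have hp := hh_pos h0 h1 a
  rw [br_eq h0 h1, hq_rpow h0 h1]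
  have hs := hs_eq l a
  have e0 : (n : ℝ) / 2 - ((0 : ℕ) : ℝ) = (n : ℝ) / 2 - 2 + 2 := by push_cast; ring
  have f0 : (n : ℝ) / 2 = (n : ℝ) / 2 - 2 + 2 := by ring
  have f1 : (n : ℝ) / 2 + 1 = (n : ℝ) / 2 - 2 + 2 + 1 := by ring
  have f2 : (n : ℝ) / 2 - 1 = (n : ℝ) / 2 - 2 + 1 := by ring
  have f3 : (n : ℝ) / 2 - 1 - 1 = (n : ℝ) / 2 - 2 := by ring
  have g0 : hh l a ^ ((n : ℝ) / 2) = hh l a ^ ((n : ℝ) / 2 - 2) * hh l a ^ 2 := by
    rw [← rp2 hp]
    congr 1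
  have g1 : hh l a ^ ((n : ℝ) / 2 + 1) = hh l a ^ ((n : ℝ) / 2 - 2) * hh l a ^ 2 * hh l a := by
    rw [← rp2 hp, ← rp1 hp]
    congr 1
  have g2 : hh l a ^ ((n : ℝ) / 2 - 1) = hh l a ^ ((n : ℝ) / 2 - 2) * hh l a := by
    rw [← rp1 hp]
    congr 1
  rw [g1, f3, g2, e0, rp2 hp, g0]
  unfold phi
  set X := hh l a ^ ((n : ℝ) / 2 - 2)
  linear_combination (X * ((n : ℝ) * (2 * n + 3) * hh l a - 3 * ((n : ℝ) + 2) * hh l a ^ 2
    + ((n : ℝ) + 3) * (l * (1 - l)))) * hs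

/-- first form of `(1-2l) X1` -/
lemma X1_lin (h0 : 0 < l) (h1 : l ≤ 1 / 2) (n : ℕ) :
    (1 - 2 * l) * X1 n l =
      (-3 * ((n : ℝ) + 2) - 2 * ((n : ℝ) * (2 * n + 3))) * Er ((n : ℝ) / 2) l
        + (6 * ((n : ℝ) + 2)) * Er ((n : ℝ) / 2 + 1) l
        + ((n : ℝ) * (2 * n + 3) - 2 * (((n : ℝ) + 3) * (l * (1 - l)))) * Er ((n : ℝ) / 2 - 1) l
        + (((n : ℝ) + 3) * (l * (1 - l))) * Er ((n : ℝ) / 2 - 1 - 1) l := by
  rw [← mn_lin h0 h1]
  unfold X1
  rw [← mn_mul]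
  congr 1
  ext a
  have hp := hh_pos h0 h1 a
  rw [br_eq h0 h1]
  have hs := hs_eq l a
  have f3 : (n : ℝ) / 2 - 1 - 1 = (n : ℝ) / 2 - 2 := by ring
  have f0 : (n : ℝ) / 2 = (n : ℝ) / 2 - 2 + 2 := by ring
  have f1 : (n : ℝ) / 2 + 1 = (n : ℝ) / 2 - 2 + 2 + 1 := by ring
  have f2 : (n : ℝ) / 2 - 1 = (n : ℝ) / 2 - 2 + 1 := by ring
  have g0 : hh l a ^ ((n : ℝ) / 2) = hh l a ^ ((n : ℝ) / 2 - 2) * hh l a ^ 2 := by
    rw [← rp2 hp]
    congr 1
  have g1 : hh l a ^ ((n : ℝ) / 2 + 1) = hh l a ^ ((n : ℝ) / 2 - 2) * hh l a ^ 2 * hh l a := by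
    rw [← rp2 hp, ← rp1 hp]
    congr 1
  have g2 : hh l a ^ ((n : ℝ) / 2 - 1) = hh l a ^ ((n : ℝ) / 2 - 2) * hh l a := by
    rw [← rp1 hp]
    congr 1
  rw [g1, f3, g2, g0]
  unfold phi
  set X := hh l a ^ ((n : ℝ) / 2 - 2)
  linear_combination (-2 * (X * ((n : ℝ) * (2 * n + 3) * hh l a - 3 * ((n : ℝ) + 2) * hh l a ^ 2
    + ((n : ℝ) + 3) * (l * (1 - l))))) * hs

/-- `(1-2l) X0` in terms of `E_p` and `E_{p-1}` -/
theorem F0 (n : ℕ) (hn : 3 ≤ n) (l : ℝ) (h0 : 0 < l) (h1 : l ≤ 1 / 2) :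
    (1 - 2 * l) * X0 n l =
      Pool.Agent.W546.ST.Eq n 0 l * (2 * ((n : ℝ) + 1) * n + 5 * l * n / ((n : ℝ) - 2))
        - l * Pool.Agent.W546.ST.Eq n 1 l * (2 * ((n : ℝ) + 1) ^ 2 - 5 * ((n : ℝ) + 1)
          + (4 * (n : ℝ) + 3) * l + (((n : ℝ) + 1) ^ 2 - 4) / ((n : ℝ) - 2)) := by
  rw [X0_lin h0 h1, Eq0 h0 h1, Eq1 h0 h1]
  have r0 := recr h0 h1 ((n : ℝ) / 2)
  have r1 := recr h0 h1 ((n : ℝ) / 2 - 1)
  have hn' : (3 : ℝ) ≤ n := by exact_mod_cast hn
  have hne : (n : ℝ) - 2 ≠ 0 := by linarith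
  rw [show (n : ℝ) / 2 - 1 + 1 = (n : ℝ) / 2 by ring] at r1
  set A := Er ((n : ℝ) / 2) l
  set B := Er ((n : ℝ) / 2 + 1) l
  set C := Er ((n : ℝ) / 2 - 1) l
  set D := Er ((n : ℝ) / 2 - 1 - 1) l
  have r1' : l * (1 - l) * D = (((n : ℝ) - 1) * C - n * A) / ((n : ℝ) - 2) := by
    rw [eq_div_iff hne]
    linarith
  have r0' : ((n : ℝ) + 2) * B = ((n : ℝ) + 1) * A - n * (l * (1 - l)) * C := by linarith
  have : (-l * (((n : ℝ) + 3) * (l * (1 - l)))) * D = -l * ((n : ℝ) + 3) * (l * (1 - l) * D) := by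
    ring
  rw [this, r1', show (-3 * ((n : ℝ) + 2)) * B = -3 * (((n : ℝ) + 2) * B) by ring, r0']
  field_simp
  ring

/-- `(1-2l) X1` in terms of `E_p` and `E_{p-1}` -/
theorem F1 (n : ℕ) (hn : 3 ≤ n) (l : ℝ) (h0 : 0 < l) (h1 : l ≤ 1 / 2) :
    (1 - 2 * l) * X1 n l =
      Pool.Agent.W546.ST.Eq n 1 l * (n * (2 * (n : ℝ) + 3) - 6 * n * (l * (1 - l))
          + (((n : ℝ) + 1) ^ 2 - 4) / ((n : ℝ) - 2) - 2 * ((n : ℝ) + 3) * (l * (1 - l)))
        - Pool.Agent.W546.ST.Eq n 0 l * (2 * n * (2 * (n : ℝ) + 3) + 3 * ((n : ℝ) + 2)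
          - 6 * ((n : ℝ) + 1) + ((n : ℝ) + 3) * n / ((n : ℝ) - 2)) := by
  rw [X1_lin h0 h1, Eq0 h0 h1, Eq1 h0 h1]
  have r0 := recr h0 h1 ((n : ℝ) / 2)
  have r1 := recr h0 h1 ((n : ℝ) / 2 - 1)
  have hn' : (3 : ℝ) ≤ n := by exact_mod_cast hn
  have hne : (n : ℝ) - 2 ≠ 0 := by linarith
  rw [show (n : ℝ) / 2 - 1 + 1 = (n : ℝ) / 2 by ring] at r1
  set A := Er ((n : ℝ) / 2) l
  set B := Er ((n : ℝ) / 2 + 1) l
  set C := Er ((n : ℝ) / 2 - 1) l
  set D := Er ((n : ℝ) / 2 - 1 - 1) l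
  have r1' : l * (1 - l) * D = (((n : ℝ) - 1) * C - n * A) / ((n : ℝ) - 2) := by
    rw [eq_div_iff hne]
    linarith
  have r0' : ((n : ℝ) + 2) * B = ((n : ℝ) + 1) * A - n * (l * (1 - l)) * C := by linarith
  have : (((n : ℝ) + 3) * (l * (1 - l))) * D = ((n : ℝ) + 3) * (l * (1 - l) * D) := by
    ring
  rw [this, r1', show (6 * ((n : ℝ) + 2)) * B = 6 * (((n : ℝ) + 2) * B) by ring, r0']
  field_simp
  ring

lemma mn_sin : mn (fun a => Real.sin a ^ 2) = 1 / 2 := by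
  have h := mn_pair (fun x => x)
  have c : Continuous (fun a : ℝ => Real.sin a ^ 2) := by fun_prop
  rw [mn_sub continuous_const c, mn_const] at h
  linarith

theorem XY : St_XY := by
  intro n hn l h0 h1
  have hn' : (3 : ℝ) ≤ n := by exact_mod_cast hn
  have hne : (n : ℝ) - 2 ≠ 0 := by linarith
  rcases eq_or_lt_of_le h1 with h | h
  · -- `l = 1/2`
    subst h
    have hh2 : ∀ a, hh (1 / 2) a = 1 / 2 := by
      intro a
      unfold hh
      ring
    unfold Y0 X0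
    rw [Eq0 h0 h1]
    have e : (fun a => (2 * (n : ℝ) + 3) * hq n 0 (1 / 2) a + Real.sin a ^ 2 * br n (1 / 2) a)
        = fun a => (2 * (n : ℝ) + 3) * (1 / 2 : ℝ) ^ ((n : ℝ) / 2)
          + ((1 / 2 : ℝ) ^ ((n : ℝ) / 2) * ((2 * n - 1) * (2 * n + 3))) * Real.sin a ^ 2 := by
      ext a
      rw [br_eq h0 h1, hq_rpow h0 h1, hh2]
      unfold phi
      have e0 : (n : ℝ) / 2 - ((0 : ℕ) : ℝ) = (n : ℝ) / 2 := by push_cast; ring
      have e1 : (1 / 2 : ℝ) ^ ((n : ℝ) / 2) = (1 / 2 : ℝ) ^ ((n : ℝ) / 2 - 2) * (1 / 2) ^ 2 := by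
        rw [← rp2 (by norm_num : (0 : ℝ) < 1 / 2)]
        congr 1
        ring
      rw [e0, e1]
      ring
    have e2 : Er ((n : ℝ) / 2) (1 / 2) = (1 / 2 : ℝ) ^ ((n : ℝ) / 2) := by
      unfold Er
      simp only [hh2]
      rw [mn_const]
    have c1 : Continuous (fun a : ℝ => ((1 / 2 : ℝ) ^ ((n : ℝ) / 2) * ((2 * n - 1) * (2 * n + 3)))
        * Real.sin a ^ 2) := by fun_prop
    rw [e, e2, mn_add continuous_const c1, mn_const, mn_mul, mn_sin]
    have hp : (0 : ℝ) < (1 / 2 : ℝ) ^ ((n : ℝ) / 2) := by positivity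
    nlinarith
  · have hl : 0 < 1 - 2 * l := by linarith
    have hF := F0 n hn l h0 h1
    have hc := cheb h0 h1 (q := (n : ℝ) / 2 - 1) (by linarith)
    rw [show (n : ℝ) / 2 - 1 + 1 = (n : ℝ) / 2 by ring] at hc
    rw [Eq0 h0 h1, Eq1 h0 h1] at hF
    have hY : Y0 n l = 2 * ((n : ℝ) + 1) * n * Er ((n : ℝ) / 2) l := by
      unfold Y0
      rw [Eq0 h0 h1]
    have hA := Er_pos h0 h1 ((n : ℝ) / 2)
    have hC := Er_pos h0 h1 ((n : ℝ) / 2 - 1)
    set A := Er ((n : ℝ) / 2) l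
    set C := Er ((n : ℝ) / 2 - 1) l
    have key : (1 - 2 * l) * (X0 n l - Y0 n l) =
        l * (A * (5 * n / ((n : ℝ) - 2) + 4 * n * (n + 1))
          - C * (2 * ((n : ℝ) + 1) ^ 2 - 5 * ((n : ℝ) + 1)
          + (4 * (n : ℝ) + 3) * l + (((n : ℝ) + 1) ^ 2 - 4) / ((n : ℝ) - 2))) := by
      rw [mul_sub, hF, hY]
      ring
    have hn2 : (0 : ℝ) < (n : ℝ) - 2 := by linarith
    have hB0 : 0 ≤ 2 * ((n : ℝ) + 1) ^ 2 - 5 * ((n : ℝ) + 1)
          + (4 * (n : ℝ) + 3) * l + (((n : ℝ) + 1) ^ 2 - 4) / ((n : ℝ) - 2) := by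
      have : 0 ≤ (((n : ℝ) + 1) ^ 2 - 4) / ((n : ℝ) - 2) := by
        apply div_nonneg
        · nlinarith
        · exact hn2.le
      have h2 : 0 ≤ (4 * (n : ℝ) + 3) * l := by positivity
      nlinarith
    have hB1 : 2 * (2 * ((n : ℝ) + 1) ^ 2 - 5 * ((n : ℝ) + 1)
          + (4 * (n : ℝ) + 3) * l + (((n : ℝ) + 1) ^ 2 - 4) / ((n : ℝ) - 2))
          ≤ 5 * n / ((n : ℝ) - 2) + 4 * n * (n + 1) := by
      have e : 5 * n / ((n : ℝ) - 2) + 4 * n * (n + 1) - 2 * (2 * ((n : ℝ) + 1) ^ 2 - 5 * ((n : ℝ) + 1)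
          + (4 * (n : ℝ) + 3) * l + (((n : ℝ) + 1) ^ 2 - 4) / ((n : ℝ) - 2))
          = (4 * (n : ℝ) + 3) * (1 - 2 * l) := by
        field_simp
        ring
      have : 0 ≤ (4 * (n : ℝ) + 3) * (1 - 2 * l) := by positivity
      linarith
    set B := 2 * ((n : ℝ) + 1) ^ 2 - 5 * ((n : ℝ) + 1)
          + (4 * (n : ℝ) + 3) * l + (((n : ℝ) + 1) ^ 2 - 4) / ((n : ℝ) - 2)
    have h3 : C * B ≤ A * (5 * n / ((n : ℝ) - 2) + 4 * n * (n + 1)) := by
      calc C * B ≤ (2 * A) * B := mul_le_mul_of_nonneg_right hc hB0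
        _ = A * (2 * B) := by ring
        _ ≤ _ := mul_le_mul_of_nonneg_left hB1 hA.le
    have h4 : 0 ≤ (1 - 2 * l) * (X0 n l - Y0 n l) := by
      rw [key]
      apply mul_nonneg h0.le
      linarith
    have h5 := nonneg_of_mul_nonneg_right h4 hl
    linarith

lemma phi_mono (n : ℕ) (hn : 5 ≤ n) (h0 : 0 < l) (h1 : l ≤ 1 / 2) {x y : ℝ} (hx : 0 < x)
    (hxy : x ≤ y) (hy : y ≤ 1) : phi n l x ≤ phi n l y := by
  have hn' : (5 : ℝ) ≤ n := by exact_mod_cast hn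
  unfold phi
  have hmu : 0 ≤ ((n : ℝ) + 3) * (l * (1 - l)) := by
    have : 0 ≤ l * (1 - l) := by nlinarith
    positivity
  apply mul_le_mul
  · exact Real.rpow_le_rpow hx.le hxy (by linarith)
  · have : 0 ≤ (y - x) * ((n : ℝ) * (2 * n + 3) - 3 * ((n : ℝ) + 2) * (x + y)) := by
      apply mul_nonneg
      · linarith
      · nlinarith
    nlinarith
  · have : 0 ≤ x * ((n : ℝ) * (2 * n + 3) - 3 * ((n : ℝ) + 2) * x) := by
      apply mul_nonneg hx.le
      nlinarith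
    nlinarith
  · exact Real.rpow_nonneg (hx.le.trans hxy) _

lemma phi_cont (n : ℕ) {f : ℝ → ℝ} (hf : Continuous f) (hp : ∀ a, 0 < f a) :
    Continuous (fun a => phi n l (f a)) := by
  unfold phi
  have h1 : Continuous (fun a => f a ^ ((n : ℝ) / 2 - 2)) :=
    hf.rpow_const fun a => Or.inl (hp a).ne'
  have h2 : Continuous (fun a => (n : ℝ) * (2 * n + 3) * f a - 3 * ((n : ℝ) + 2) * f a ^ 2
    + ((n : ℝ) + 3) * (l * (1 - l))) := by fun_prop
  exact h1.mul h2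

theorem X1neg : St_X1 := by
  intro n hn l h0 h1
  unfold X1
  have e : (fun a => (1 - 2 * Real.sin a ^ 2) * br n l a)
      = fun a => (fun x => (1 - 2 * x) * phi n l (l + (1 - 2 * l) * x)) (Real.sin a ^ 2) := by
    ext a
    rw [br_eq h0 h1]
    rfl
  have hpair := mn_pair (fun x => (1 - 2 * x) * phi n l (l + (1 - 2 * l) * x))
  rw [e]
  simp only [hh_one_sub] at hpair
  have e1 : (fun a => (fun x => (1 - 2 * x) * phi n l (l + (1 - 2 * l) * x)) (Real.sin a ^ 2))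
      = fun a => (1 - 2 * Real.sin a ^ 2) * phi n l (hh l a) := rfl
  have e2 : (fun a => (1 - 2 * Real.sin a ^ 2) * phi n l (l + (1 - 2 * l) * Real.sin a ^ 2))
      = fun a => (1 - 2 * Real.sin a ^ 2) * phi n l (hh l a) := rfl
  rw [e2] at hpair
  rw [e1]
  have hp' : ∀ a, 0 < 1 - hh l a := fun a => by
    have := hh_le h1 a
    linarith
  have cs : Continuous (fun a : ℝ => 1 - 2 * Real.sin a ^ 2) := by fun_prop
  have c1 : Continuous (fun a => (1 - 2 * Real.sin a ^ 2) * phi n l (hh l a)) :=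
    cs.mul (phi_cont n (hh_cont l) (hh_pos h0 h1))
  have ch : Continuous (fun a => 1 - hh l a) := continuous_const.sub (hh_cont l)
  have cs' : Continuous (fun a : ℝ => 1 - 2 * (1 - Real.sin a ^ 2)) := by fun_prop
  have c2 : Continuous (fun a => (1 - 2 * (1 - Real.sin a ^ 2)) * phi n l (1 - hh l a)) :=
    cs'.mul (phi_cont n ch hp')
  have h2 : 2 * mn (fun a => (1 - 2 * Real.sin a ^ 2) * phi n l (hh l a))
      = mn (fun a => (1 - 2 * Real.sin a ^ 2) * phi n l (hh l a)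
        + (1 - 2 * (1 - Real.sin a ^ 2)) * phi n l (1 - hh l a)) := by
    rw [mn_add c1 c2, ← hpair]
    ring
  have h3 : mn (fun a => (1 - 2 * Real.sin a ^ 2) * phi n l (hh l a)
        + (1 - 2 * (1 - Real.sin a ^ 2)) * phi n l (1 - hh l a)) ≤ 0 := by
    rw [← mn_const 0]
    apply mn_mono (c1.add c2) continuous_const
    intro a
    have e3 : (1 - 2 * Real.sin a ^ 2) * phi n l (hh l a)
        + (1 - 2 * (1 - Real.sin a ^ 2)) * phi n l (1 - hh l a)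
        = (1 - 2 * Real.sin a ^ 2) * (phi n l (hh l a) - phi n l (1 - hh l a)) := by ring
    show (1 - 2 * Real.sin a ^ 2) * phi n l (hh l a)
        + (1 - 2 * (1 - Real.sin a ^ 2)) * phi n l (1 - hh l a) ≤ 0
    rw [e3]
    have hs := hs_eq l a
    have hpa := hh_pos h0 h1 a
    have hpb := hp' a
    rcases le_total (Real.sin a ^ 2) (1 / 2) with h | h
    · apply mul_nonpos_of_nonneg_of_nonpos
      · linarith
      · have : hh l a ≤ 1 - hh l a := by nlinarith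
        have := phi_mono n hn h0 h1 hpa this (by linarith)
        linarith
    · apply mul_nonpos_of_nonpos_of_nonneg
      · linarith
      · have : 1 - hh l a ≤ hh l a := by nlinarith
        have := phi_mono n hn h0 h1 hpb this (by have := hh_le h1 a; linarith)
        linarith
  linarith

end Pool.Agent.W797.ST
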